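import Mathlib
import Pool.Agent.U35.RC.Stm

set_option autoImplicit false

/-!
Project RC (helper35), package W (helper606): the structure gives the moves.
-/

namespace Pool.Agent.U606.RC

open Pool.Agent.U35.RC

variable {G : ℕ → ℕ → Prop}

lemma sft_lt {i j : ℕ} (h : Sft i j) : i < j := by
  obtain ⟨a, b, c, hab, hbc, rfl, rfl⟩ := h
  rw [Nat.pair, Nat.pair, if_pos hab, if_pos hbc]
  nlinarith

lemma T_edge {β : ℕ → ℕ} {k : ℕ} {C : Finset ℕ} (h : T β k C) : ∃ i ∈ C, ∃ j ∈ C, Sft i j := by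
  cases k with
  | zero => exact h
  | succ k => exact h.1

lemma st_nonempty {k : ℕ} : ∀ {A : Finset ℕ}, St G k A → A.Nonempty := by
  induction k with
  | zero => exact fun h => h
  | succ k ih =>
    rintro A ⟨β, C, P, hT, hP, -⟩
    obtain ⟨i, hi, -⟩ := T_edge hT
    exact (ih (hP i hi).2).mono (hP i hi).1

/-- colourings with few colours can be made constant -/
lemma lem1 (k : ℕ) : ∀ (A : Finset ℕ) (F : ℕ → ℕ), St G (k + 1) A →
    (∀ a ∈ A, ∀ b ∈ A, F a < b) → ∃ A' ⊆ A, St G k A' ∧ ∀ a ∈ A', ∀ b ∈ A', F a = F b := by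
  induction k with
  | zero =>
    intro A F hA _
    obtain ⟨a, ha⟩ := st_nonempty hA
    refine ⟨{a}, by simpa using ha, ⟨a, by simp⟩, ?_⟩
    intro x hx y hy
    rw [Finset.mem_singleton] at hx hy
    rw [hx, hy]
  | succ k ih =>
    rintro A F ⟨β, C, P, hT, hP, hβ, hord, hG⟩ hF
    have h1 : ∀ i, ∃ Q : Finset ℕ, i ∈ C → Q ⊆ P i ∧ St G k Q ∧ ∀ a ∈ Q, ∀ b ∈ Q, F a = F b := by
      intro i
      by_cases hi : i ∈ C
      · obtain ⟨Q, hQ⟩ := ih (P i) F (hP i hi).2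
          (fun a ha b hb => hF a ((hP i hi).1 ha) b ((hP i hi).1 hb))
        exact ⟨Q, fun _ => hQ⟩
      · exact ⟨∅, fun h => absurd h hi⟩
    choose P' hP' using h1
    have h2 : ∀ i, ∃ m : ℕ, i ∈ C → ∀ a ∈ P' i, F a = m := by
      intro i
      by_cases hi : i ∈ C
      · obtain ⟨a, ha⟩ := st_nonempty (hP' i hi).2.1
        exact ⟨F a, fun _ b hb => (hP' i hi).2.2 b hb a ha⟩
      · exact ⟨0, fun h => absurd h hi⟩
    choose f hf using h2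
    have h3 : ∀ i ∈ C, ∀ j ∈ C, f i < β j := by
      intro i hi j hj
      obtain ⟨a, ha⟩ := st_nonempty (hP' i hi).2.1
      obtain ⟨b, hb⟩ := st_nonempty (hP j hj).2
      rw [← hf i hi a ha]
      exact (hF a ((hP i hi).1 ((hP' i hi).1 ha)) b ((hP j hj).1 hb)).trans_le (hβ j hj b hb)
    obtain ⟨C', hC', hT', hconst⟩ := hT.2 f h3
    refine ⟨C'.biUnion P', ?_, ⟨β, C', P', hT', ?_, ?_, ?_, ?_⟩, ?_⟩
    · intro a ha
      obtain ⟨i, hi, hai⟩ := Finset.mem_biUnion.1 ha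
      exact (hP i (hC' hi)).1 ((hP' i (hC' hi)).1 hai)
    · intro i hi
      exact ⟨fun a ha => Finset.mem_biUnion.2 ⟨i, hi, ha⟩, (hP' i (hC' hi)).2.1⟩
    · intro i hi a ha
      exact hβ i (hC' hi) a ((hP' i (hC' hi)).1 ha)
    · intro i hi j hj hij a ha b hb
      exact hord i (hC' hi) j (hC' hj) hij a ((hP' i (hC' hi)).1 ha) b ((hP' j (hC' hj)).1 hb)
    · intro i hi j hj hs x y h4 h5 h6 h7
      obtain ⟨a1, ha1, h4⟩ := h4
      obtain ⟨a2, ha2, h5⟩ := h5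
      obtain ⟨b1, hb1, h6⟩ := h6
      obtain ⟨b2, hb2, h7⟩ := h7
      exact hG i (hC' hi) j (hC' hj) hs x y ⟨a1, (hP' i (hC' hi)).1 ha1, h4⟩
        ⟨a2, (hP' i (hC' hi)).1 ha2, h5⟩ ⟨b1, (hP' j (hC' hj)).1 hb1, h6⟩
        ⟨b2, (hP' j (hC' hj)).1 hb2, h7⟩
    · intro a ha b hb
      obtain ⟨i, hi, hai⟩ := Finset.mem_biUnion.1 ha
      obtain ⟨j, hj, hbj⟩ := Finset.mem_biUnion.1 hb
      rw [hf i (hC' hi) a hai, hf j (hC' hj) b hbj, hconst i hi j hj]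

/-- two blocks which are completely joined -/
lemma lem2 {k : ℕ} {A : Finset ℕ} (h : St G (k + 1) A) : ∃ P Q : Finset ℕ, P ⊆ A ∧ Q ⊆ A ∧
    St G k P ∧ St G k Q ∧ (∀ a ∈ P, ∀ b ∈ Q, a < b) ∧
    ∀ x y, (∃ a ∈ P, a ≤ x) → (∃ a ∈ P, x ≤ a) → (∃ b ∈ Q, b ≤ y) → (∃ b ∈ Q, y ≤ b) → G x y := by
  obtain ⟨β, C, P, hT, hP, hβ, hord, hG⟩ := h
  obtain ⟨i, hi, j, hj, hs⟩ := T_edge hT
  exact ⟨P i, P j, (hP i hi).1, (hP j hj).1, (hP i hi).2, (hP j hj).2,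
    hord i hi j hj (sft_lt hs), hG i hi j hj hs⟩

theorem t_W : S_W := by
  intro G k
  induction k with
  | zero => exact fun A _ hA => hA
  | succ k ih =>
    intro A hA2 hA
    refine ⟨st_nonempty hA, ?_⟩
    intro F c x H hH
    have hA' : St G ((3 * k + 2) + 1) A := hA
    -- an element below
    obtain ⟨P, A₁, hP, hA₁, hSP, hS₁, hlt, -⟩ := lem2 hA'
    obtain ⟨a₀, ha₀⟩ := st_nonempty hSP
    -- the colouring
    classical
    let K : Prop := ∀ a ∈ A, 2 * (c + 1) ≤ a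
    let F' : ℕ → ℕ := fun a => (if K then 2 * min (F a) c else 0) + (if a < x then 1 else 0)
    have hF' : ∀ a ∈ A₁, ∀ b ∈ A₁, F' a < b := by
      intro a ha b hb
      have h1 : (if a < x then 1 else 0 : ℕ) ≤ 1 := by split_ifs <;> omega
      by_cases hK : K
      · have h2 := hK b (hA₁ hb)
        simp only [F', if_pos hK]
        have h3 : min (F a) c ≤ c := min_le_right _ _
        omega
      · have h2 := hA2 b (hA₁ hb)
        simp only [F', if_neg hK]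
        omega
    obtain ⟨A₂, hA₂, hS₂, hc₂⟩ := lem1 (3 * k + 1) A₁ F' hS₁ hF'
    -- the independent set
    obtain ⟨P₂, Q₂, hP₂, hQ₂, hSP₂, hSQ₂, hlt₂, hG₂⟩ := lem2 hS₂
    have hmiss : ∃ A' ⊆ A₂, St G (3 * k) A' ∧
        ∀ h ∈ H, ¬ ((∃ a ∈ A', a ≤ h) ∧ ∃ a ∈ A', h ≤ a) := by
      by_cases h1 : ∀ h ∈ H, ¬ ((∃ a ∈ P₂, a ≤ h) ∧ ∃ a ∈ P₂, h ≤ a)
      · exact ⟨P₂, hP₂, hSP₂, h1⟩
      · refine ⟨Q₂, hQ₂, hSQ₂, ?_⟩
        push Not at h1
        obtain ⟨h, hh, ⟨a, ha, hah⟩, a', ha', hha'⟩ := h1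
        rintro h' hh' ⟨⟨b, hb, hbh⟩, b', hb', hhb'⟩
        have h2 : h < h' := by
          have := hlt₂ a' ha' b hb
          omega
        exact hH h hh h' hh' h2
          (hG₂ h h' ⟨a, ha, hah⟩ ⟨a', ha', hha'⟩ ⟨b, hb, hbh⟩ ⟨b', hb', hhb'⟩)
    obtain ⟨A', hA'₂, hS', hm'⟩ := hmiss
    refine ⟨A', ⟨(hA'₂.trans hA₂).trans hA₁, ⟨a₀, hP ha₀, fun a' ha' =>
      hlt a₀ ha₀ a' (hA₂ (hA'₂ ha'))⟩, ?_, ?_, hm'⟩, ih A' (fun a ha => hA2 a
        (hA₁ (hA₂ (hA'₂ ha)))) hS'⟩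
    · intro hK a ha b hb
      have h1 := hc₂ a (hA'₂ ha) b (hA'₂ hb)
      simp only [F'] at h1
      rw [if_pos hK, if_pos hK] at h1
      split_ifs at h1 <;> omega
    · by_cases h1 : ∃ a ∈ A', a < x
      · left
        obtain ⟨a, ha, hax⟩ := h1
        intro b hb
        by_contra hbx
        have h2 := hc₂ a (hA'₂ ha) b (hA'₂ hb)
        simp only [F'] at h2
        rw [if_pos hax, if_neg hbx] at h2
        split_ifs at h2 <;> omega
      · right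
        push Not at h1
        exact h1

end Pool.Agent.U606.RC
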